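import Mathlib

/-!
Two non-isomorphic graphs on 15 vertices, each of which is the γ-graph of the other.
-/

namespace Pool.Agent.Results.MP_b9dfd5_co.TwoCycle

/-- `S` is a dominating set of `G`. -/
def IsDominating {V : Type} (G : SimpleGraph V) (S : Finset V) : Prop :=
  ∀ v, v ∈ S ∨ ∃ u ∈ S, G.Adj u v

/-- `S` is a `γ`-set of `G`: a dominating set of least size. -/
def IsGammaSet {V : Type} (G : SimpleGraph V) (S : Finset V) : Prop :=
  IsDominating G S ∧ ∀ T, IsDominating G T → S.card ≤ T.card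

/-- `S₂` arises from `S₁` by sliding one token along an edge of `G`. -/
def Slides {V : Type} [DecidableEq V] (G : SimpleGraph V) (S₁ S₂ : Finset V) : Prop :=
  ∃ u v, u ∈ S₁ ∧ v ∈ S₂ ∧ G.Adj u v ∧ S₂ = insert v (S₁.erase u)

/-- The `γ`-graph of `G`. -/
def gammaGraph {V : Type} [DecidableEq V] (G : SimpleGraph V) :
    SimpleGraph {S : Finset V // IsGammaSet G S} :=
  SimpleGraph.fromRel fun S T => Slides G S.1 T.1

/-- Adjacency read off from a list of row bitmasks. -/
def adjM (m : List ℕ) (i j : Fin 15) : Bool := (m.getD i.val 0).testBit j.val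

/-- Row bitmasks of the first graph (15 vertices, 31 edges). -/
def mA : List ℕ :=
  [4098, 4157, 58, 54, 46, 16478, 18336, 1856, 11968, 1472, 960, 8448, 16387, 18688, 12384]

/-- Row bitmasks of the second graph (15 vertices, 31 edges). -/
def mB : List ℕ :=
  [16386, 16421, 226, 30752, 1952, 30, 132, 1876, 1680, 1424, 912, 28680, 26632, 22536, 14347]

/-- The first graph. -/
def gA : SimpleGraph (Fin 15) where
  Adj i j := adjM mA i j = true
  symm := ⟨by decide +kernel⟩
  loopless := ⟨by decide +kernel⟩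

/-- The second graph. -/
def gB : SimpleGraph (Fin 15) where
  Adj i j := adjM mB i j = true
  symm := ⟨by decide +kernel⟩
  loopless := ⟨by decide +kernel⟩

instance : DecidableRel gA.Adj := fun i j => inferInstanceAs (Decidable (adjM mA i j = true))
instance : DecidableRel gB.Adj := fun i j => inferInstanceAs (Decidable (adjM mB i j = true))

/-- The minimum dominating sets of the first graph, indexed by the vertices of the second. -/
def sA : Fin 15 → Finset (Fin 15) :=
  ![{0,5,8}, {1,5,8}, {1,6,8}, {1,8,12}, {1,8,13}, {1,8,14}, {1,6,11}, {1,6,13}, {1,7,13},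
    {1,9,13}, {1,10,13}, {2,8,12}, {3,8,12}, {4,8,12}, {5,8,12}]

/-- The minimum dominating sets of the second graph, indexed by the vertices of the first. -/
def sB : Fin 15 → Finset (Fin 15) :=
  ![{0,3,7}, {1,3,7}, {1,7,11}, {1,7,12}, {1,7,13}, {1,7,14}, {2,7,14}, {2,8,14}, {2,4,14},
    {2,9,14}, {2,10,14}, {4,6,14}, {3,7,14}, {4,7,14}, {5,7,14}]

/-- Dominating sets. -/
def Dom (G : SimpleGraph (Fin 15)) (S : Finset (Fin 15)) : Prop :=
  ∀ v, v ∈ S ∨ ∃ u ∈ S, G.Adj u v

/-- A general criterion identifying the minimum dominating sets. -/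
theorem crit (G : SimpleGraph (Fin 15)) (s : Fin 15 → Finset (Fin 15))
    (hcard : ∀ i, (s i).card = 3) (hdom : ∀ i, Dom G (s i))
    (h2 : ∀ x y : Fin 15, ∃ v, ¬ (v = x ∨ v = y ∨ G.Adj x v ∨ G.Adj y v))
    (h3 : ∀ x y z : Fin 15, (∀ v, v = x ∨ v = y ∨ v = z ∨ G.Adj x v ∨ G.Adj y v ∨ G.Adj z v) →
      ∃ i, s i = {x, y, z}) (S : Finset (Fin 15)) :
    (Dom G S ∧ ∀ T, Dom G T → S.card ≤ T.card) ↔ ∃ i, s i = S := by
  have hlow : ∀ T, Dom G T → 3 ≤ T.card := by
    intro T hT
    by_contra hlt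
    have hle : T.card ≤ 2 := by omega
    obtain ⟨x, y, hxy⟩ : ∃ x y : Fin 15, T ⊆ {x, y} := by
      rcases Nat.lt_or_ge T.card 1 with h | h
      · have : T = ∅ := Finset.card_eq_zero.mp (by omega)
        exact ⟨0, 0, by simp [this]⟩
      · rcases Nat.lt_or_ge T.card 2 with h' | h'
        · obtain ⟨x, hx⟩ := Finset.card_eq_one.mp (show T.card = 1 by omega)
          exact ⟨x, x, by simp [hx]⟩
        · obtain ⟨x, y, _, hx⟩ := Finset.card_eq_two.mp (show T.card = 2 by omega)
          exact ⟨x, y, by simp [hx]⟩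
    obtain ⟨v, hv⟩ := h2 x y
    apply hv
    rcases hT v with h | ⟨u, hu, huv⟩
    · have := hxy h
      simp only [Finset.mem_insert, Finset.mem_singleton] at this
      tauto
    · have := hxy hu
      simp only [Finset.mem_insert, Finset.mem_singleton] at this
      rcases this with rfl | rfl <;> tauto
  constructor
  · rintro ⟨hS, hmin⟩
    have hc : S.card = 3 := le_antisymm (by simpa [hcard 0] using hmin _ (hdom 0)) (hlow S hS)
    obtain ⟨x, y, z, _, _, _, rfl⟩ := Finset.card_eq_three.mp hc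
    apply h3
    intro v
    rcases hS v with h | ⟨u, hu, huv⟩
    · simp only [Finset.mem_insert, Finset.mem_singleton] at h
      tauto
    · simp only [Finset.mem_insert, Finset.mem_singleton] at hu
      rcases hu with rfl | rfl | rfl <;> tauto
  · rintro ⟨i, rfl⟩
    exact ⟨hdom i, fun T hT => by rw [hcard i]; exact hlow T hT⟩

theorem critA (S : Finset (Fin 15)) :
    (Dom gA S ∧ ∀ T, Dom gA T → S.card ≤ T.card) ↔ ∃ i, sA i = S :=
  crit gA sA (by decide +kernel) (by unfold Dom; decide +kernel) (by decide +kernel)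
    (by decide +kernel) S

theorem critB (S : Finset (Fin 15)) :
    (Dom gB S ∧ ∀ T, Dom gB T → S.card ≤ T.card) ↔ ∃ i, sB i = S :=
  crit gB sB (by decide +kernel) (by unfold Dom; decide +kernel) (by decide +kernel)
    (by decide +kernel) S

theorem adjAB : ∀ a b, gB.Adj a b ↔ ∃ u v, u ∈ sA a ∧ v ∉ sA a ∧ gA.Adj u v ∧
      sA b = insert v ((sA a).erase u) := by decide +kernel

theorem adjBA : ∀ a b, gA.Adj a b ↔ ∃ u v, u ∈ sB a ∧ v ∉ sB a ∧ gB.Adj u v ∧
      sB b = insert v ((sB a).erase u) := by decide +kernel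

theorem injA : Function.Injective sA := by
  have : ∀ i j, sA i = sA j → i = j := by decide +kernel
  exact fun i j => this i j

theorem injB : Function.Injective sB := by
  have : ∀ i j, sB i = sB j → i = j := by decide +kernel
  exact fun i j => this i j

theorem notIso : IsEmpty (gB ≃g gA) := by
  refine ⟨fun φ => ?_⟩
  have h5 : ∀ w, (Finset.univ.filter (fun x => gA.Adj w x)).card ≠ 5 := by decide +kernel
  have hB : (Finset.univ.filter (fun x => gB.Adj 3 x)).card = 5 := by decide +kernel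
  apply h5 (φ 3)
  rw [← hB]
  symm
  apply Finset.card_bij (fun x _ => φ x)
  · intro x hx
    simp only [Finset.mem_filter, Finset.mem_univ, true_and] at hx ⊢
    exact φ.map_rel_iff.mpr hx
  · intro x _ y _ h
    exact φ.injective h
  · intro y hy
    simp only [Finset.mem_filter, Finset.mem_univ, true_and] at hy
    refine ⟨φ.symm y, ?_, by simp⟩
    simp only [Finset.mem_filter, Finset.mem_univ, true_and]
    rw [← φ.map_rel_iff]
    simpa using hy


theorem iso_of (G H : SimpleGraph (Fin 15)) (s : Fin 15 → Finset (Fin 15))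
    (hinj : Function.Injective s)
    (hs : ∀ S, IsGammaSet G S ↔ ∃ i, s i = S)
    (hadj : ∀ a b, H.Adj a b ↔ a ≠ b ∧ (Slides G (s a) (s b) ∨ Slides G (s b) (s a))) :
    Nonempty (gammaGraph G ≃g H) := by
  refine ⟨SimpleGraph.Iso.symm ⟨Equiv.ofBijective (fun i => ⟨s i, (hs (s i)).mpr ⟨i, rfl⟩⟩)
    ⟨?_, ?_⟩, ?_⟩⟩
  · intro i j hij
    exact hinj (congrArg Subtype.val hij)
  · rintro ⟨S, hS⟩
    obtain ⟨i, hi⟩ := (hs S).mp hS
    exact ⟨i, Subtype.ext hi⟩
  · intro a b
    rw [hadj]
    change (gammaGraph G).Adj ⟨s a, _⟩ ⟨s b, _⟩ ↔ _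
    unfold gammaGraph
    rw [SimpleGraph.fromRel_adj]
    constructor
    · rintro ⟨h1, h2⟩
      exact ⟨fun h => h1 (by subst h; rfl), h2⟩
    · rintro ⟨h1, h2⟩
      exact ⟨fun h => h1 (hinj (congrArg Subtype.val h)), h2⟩

instance (G : SimpleGraph (Fin 15)) [DecidableRel G.Adj] (S T : Finset (Fin 15)) :
    Decidable (Slides G S T) := by unfold Slides; infer_instance

theorem isoAB : Nonempty (gammaGraph gA ≃g gB) :=
  iso_of gA gB sA injA critA (by decide +kernel)

theorem isoBA : Nonempty (gammaGraph gB ≃g gA) :=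
  iso_of gB gA sB injB critB (by decide +kernel)

/-- Two non-isomorphic graphs, each isomorphic to the `γ`-graph of the other. -/
theorem result : ∃ G H : SimpleGraph (Fin 15), IsEmpty (G ≃g H) ∧
    Nonempty (gammaGraph G ≃g H) ∧ Nonempty (gammaGraph H ≃g G) :=
  ⟨gB, gA, notIso, isoBA, isoAB⟩

end Pool.Agent.Results.MP_b9dfd5_co.TwoCycle
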